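import Pool.Agent.W_7742b_h74.Sys

noncomputable section

namespace Pool.Agent.H74D

open Filter Topology ComplexConjugate Pool.Agent.H74C

namespace SelfDualSystem

variable {L : Type} [Field L] [NumberField L] [IsGalois ℚ L] {π : SelfDualSystem L} (ι : L →+* ℂ)

lemma mean_s (hO : π.Orthogonal) : HasMean (avg ι π.ad) 0 :=
  mean_avg ι fun τ => by
    exact hO.mean_ad τ

lemma mean_r (hO : π.Orthogonal) : HasMean (avg ι π.four) 0 :=
  mean_avg ι fun τ => by
    exact hO.mean_four τ

lemma mean_sr (hO : π.Orthogonal) : HasMean (avg ι π.ad * avg ι π.four) 0 :=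
  mean_avg_mul ι fun τ τ' => by
    exact hO.mean_ad_four τ τ'

lemma mean_ss (hO : π.Orthogonal) :
    HasMean (fun p => avg ι π.ad p ^ 2) (((fixer π π.yy).index : ℝ)⁻¹) :=
  mean_avg_sq ι (fixer π π.yy) (fun _ _ h => hO.ad_ad_same _ _ ((same_ad ι).2 h))
    (fun _ _ h => hO.ad_ad_ne _ _ (fun h' => h ((same_ad ι).1 h')))

lemma mean_rr (hO : π.Orthogonal) :
    HasMean (fun p => avg ι π.four p ^ 2) (((fixer π π.zz).index : ℝ)⁻¹) :=
  mean_avg_sq ι (fixer π π.zz) (fun _ _ h => hO.four_four_same _ _ ((same_four ι).2 h))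
    (fun _ _ h => hO.four_four_ne _ _ (fun h' => h ((same_four ι).1 h')))

lemma avg_const {f : (L →+* ℂ) → ℕ → ℝ} {p : ℕ} {c : ℝ} (h : ∀ σ, f (em ι σ) p = c) :
    avg ι f p = c := by
  unfold avg
  simp only [h, Finset.sum_const, Finset.card_univ, nsmul_eq_mul]
  rw [← mul_assoc, inv_mul_cancel₀ (by exact_mod_cast Fintype.card_ne_zero), one_mul]

lemma u_of_yy {p : ℕ} (hp : π.Good p) {q : ℚ} (h : π.yy p = q) (τ : L →+* ℂ) : π.u τ p = q := by
  have := emb_yy hp τ
  rw [h, map_ratCast] at this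
  exact_mod_cast this.symm

/-- Case I. -/
theorem case_one (hO : π.Orthogonal) (h4 : 2 ≤ (fixer π π.zz).index)
    (h2 : 3 ≤ (fixer π π.yy).index) : False := by
  have ι : L →+* ℂ := Classical.choice inferInstance
  have hm := (((mean_rr ι hO).add (((mean_ss ι hO).add (mean_s ι hO)).const_mul (25 / 14))).sub
    hasMean_one)
  obtain ⟨S, hS⟩ := π.exists_bad
  have hnn := hm.nonneg' S (fun p hp hpS => by
    have hg := hS p hp hpS
    change 0 ≤ avg ι π.four p ^ 2 + 25 / 14 * (avg ι π.ad p ^ 2 + avg ι π.ad p) - 1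
    by_cases h0 : π.yy p = 0
    · have hu : ∀ τ, π.u τ p = 0 := fun τ => by
        have := u_of_yy hg (q := 0) (by simpa using h0) τ
        simpa using this
      have e1 : avg ι π.ad p = -1 := avg_const ι fun σ => by rw [ad_eq, hu]; ring
      have e2 : avg ι π.four p = 1 := avg_const ι fun σ => by rw [four_eq, hu]; ring
      rw [e1, e2]; norm_num
    by_cases h1 : π.yy p = 1
    · have hu : ∀ τ, π.u τ p = 1 := fun τ => by
        have := u_of_yy hg (q := 1) (by simpa using h1) τ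
        simpa using this
      have e1 : avg ι π.ad p = 0 := avg_const ι fun σ => by rw [ad_eq, hu]; ring
      have e2 : avg ι π.four p = -1 := avg_const ι fun σ => by rw [four_eq, hu]; ring
      rw [e1, e2]; norm_num
    have hb := trace_bound ι (yy_integral hg) h0 h1 (r := fun σ => π.u (em ι σ) p)
      (fun σ => u_em ι σ hg) (fun σ => u_nonneg hg _)
    have hc : (0 : ℝ) < Fintype.card (L ≃ₐ[ℚ] L) := by exact_mod_cast Fintype.card_pos
    have hs : 2 / 5 ≤ avg ι π.ad p := by
      unfold avg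
      simp only [ad_eq]
      rw [Finset.sum_sub_distrib, Finset.sum_const, Finset.card_univ, nsmul_eq_mul, mul_one,
        inv_mul_eq_div, le_div_iff₀ hc]
      linarith
    nlinarith [sq_nonneg (avg ι π.four p)])
  have hdvd : (fixer π π.zz).index ∣ (fixer π π.yy).index := Subgroup.index_dvd_of_le fixer_le
  set i := (fixer π π.zz).index with hi
  set j := (fixer π π.yy).index with hj
  rcases Nat.lt_or_ge i 3 with hlt | hge
  · have hi2 : i = 2 := by omega
    have hj4 : 4 ≤ j := by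
      obtain ⟨k, hk⟩ := hdvd
      rw [hi2] at hk
      omega
    have e1 : ((j : ℕ) : ℝ)⁻¹ ≤ 4⁻¹ := by
      apply inv_anti₀ (by norm_num)
      exact_mod_cast hj4
    rw [hi2] at hnn
    push_cast at hnn
    linarith
  · have e1 : ((j : ℕ) : ℝ)⁻¹ ≤ 3⁻¹ := by
      apply inv_anti₀ (by norm_num)
      exact_mod_cast h2
    have e2 : ((i : ℕ) : ℝ)⁻¹ ≤ 3⁻¹ := by
      apply inv_anti₀ (by norm_num)
      exact_mod_cast hge
    linarith

lemma avg_two {f : (L →+* ℂ) → ℕ → ℝ} {p : ℕ} {A B : ℝ} (g : L ≃ₐ[ℚ] L)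
    (h : ∀ σ, f (em ι σ) p + f (em ι (σ * g)) p = A + B) : avg ι f p = (A + B) / 2 := by
  unfold avg
  have h1 : ∑ σ : L ≃ₐ[ℚ] L, f (em ι (σ * g)) p = ∑ σ : L ≃ₐ[ℚ] L, f (em ι σ) p :=
    Fintype.sum_equiv (Equiv.mulRight g) _ _ fun σ => rfl
  have h2 : ∑ σ : L ≃ₐ[ℚ] L, (f (em ι σ) p + f (em ι (σ * g)) p) =
      Fintype.card (L ≃ₐ[ℚ] L) * (A + B) := by
    simp only [h, Finset.sum_const, Finset.card_univ, nsmul_eq_mul]
  rw [Finset.sum_add_distrib, h1] at h2
  have hc : (Fintype.card (L ≃ₐ[ℚ] L) : ℝ) ≠ 0 := by exact_mod_cast Fintype.card_ne_zero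
  rw [inv_mul_eq_div, div_eq_iff hc]
  linarith

lemma real_ineq {s r : ℝ} (hs : 1 ≤ s) (hr : s ^ 2 - s - 1 ≤ r) :
    0 ≤ 2 * r ^ 2 + r + 2 * s - 1 - 1 / 10 * (s ^ 2 - s / 2 + 3 / 2 * (s * r)) := by
  rcases le_total s 10 with h | h
  · nlinarith [sq_nonneg (4 * r + (1 - 3 / 20 * s)), mul_nonneg (sub_nonneg.2 hs) (sub_nonneg.2 h)]
  · have h1 : s ≤ r := by nlinarith
    nlinarith [mul_nonneg (by linarith : (0 : ℝ) ≤ s) (sub_nonneg.2 h1),
      mul_nonneg (by linarith : (0 : ℝ) ≤ r) (sub_nonneg.2 h1)]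

/-- Case II. -/
theorem case_two (hO : π.Orthogonal) (h4 : (fixer π π.zz).index = 2)
    (h2 : (fixer π π.yy).index = 2) : False := by
  have ι : L →+* ℂ := Classical.choice inferInstance
  set H := fixer π π.yy with hH
  obtain ⟨g, hg⟩ : ∃ g, g ∉ H := by
    by_contra hcon
    push Not at hcon
    have : H = ⊤ := by
      ext x
      simp [hcon x]
    rw [this, Subgroup.index_top] at h2
    omega
  -- membership
  have hmem : ∀ a b : L ≃ₐ[ℚ] L, a * b ∈ H ↔ (a ∈ H ↔ b ∈ H) :=
    fun a b => Subgroup.mul_mem_iff_of_index_two h2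
  have hin : ∀ σ ∈ H, ∀ p, π.Good p → σ (π.yy p) = π.yy p := fun σ hσ p hp => hσ p hp
  have hout : ∀ σ, σ ∉ H → ∀ p, π.Good p → σ (π.yy p) = g (π.yy p) := by
    intro σ hσ p hp
    have h1 : g⁻¹ * σ ∈ H := (hmem _ _).2 ⟨fun h => absurd (H.inv_mem_iff.1 h) hg, fun h => absurd h hσ⟩
    exact ((fixer_iff (π := π)).1 h1 p hp).symm
  have hm := ((((mean_rr ι hO).const_mul 2).add (mean_r ι hO)).add ((mean_s ι hO).const_mul 2)).sub
    hasMean_one
  have hm2 := (((mean_ss ι hO).sub ((mean_s ι hO).const_mul (1 / 2))).add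
    ((mean_sr ι hO).const_mul (3 / 2))).const_mul (1 / 10)
  have hm3 := hm.sub hm2
  obtain ⟨S, hS⟩ := π.exists_bad
  have hnn := hm3.nonneg' S (fun p hp hpS => by
    have hgp := hS p hp hpS
    change 0 ≤ 2 * avg ι π.four p ^ 2 + avg ι π.four p + 2 * avg ι π.ad p - 1 -
      1 / 10 * (avg ι π.ad p ^ 2 - 1 / 2 * avg ι π.ad p + 3 / 2 * (avg ι π.ad p * avg ι π.four p))
    set y := π.yy p with hy
    set A := π.u (em ι 1) p with hA
    set B := π.u (em ι g) p with hB
    have hA' : ι y = (A : ℂ) := u_em ι 1 hgp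
    have hB' : ι (g y) = (B : ℂ) := u_em ι g hgp
    have hA0 : 0 ≤ A := u_nonneg hgp _
    have hB0 : 0 ≤ B := u_nonneg hgp _
    have huin : ∀ σ ∈ H, π.u (em ι σ) p = A := by
      intro σ hσ
      have := u_em ι σ hgp
      rw [hin σ hσ p hgp, ← hy, hA'] at this
      exact_mod_cast this.symm
    have huout : ∀ σ, σ ∉ H → π.u (em ι σ) p = B := by
      intro σ hσ
      have := u_em ι σ hgp
      rw [hout σ hσ p hgp, ← hy, hB'] at this
      exact_mod_cast this.symm
    have key : ∀ (F : ℝ → ℝ) (σ : L ≃ₐ[ℚ] L),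
        F (π.u (em ι σ) p) + F (π.u (em ι (σ * g)) p) = F A + F B := by
      intro F σ
      by_cases hσ : σ ∈ H
      · have : σ * g ∉ H := fun h => hg (((hmem _ _).1 h).1 hσ)
        rw [huin σ hσ, huout _ this]
      · have : σ * g ∈ H := (hmem _ _).2 ⟨fun h => absurd h hσ, fun h => absurd h hg⟩
        rw [huout σ hσ, huin _ this, add_comm]
    have es : avg ι π.ad p = (A + B) / 2 - 1 := by
      have := avg_two ι (f := π.ad) (p := p) g (A := A - 1) (B := B - 1) (fun σ => by
          rw [ad_eq, ad_eq]; exact key (fun x => x - 1) σ)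
      rw [this]; ring
    have er : avg ι π.four p = (A ^ 2 + B ^ 2 - 3 * (A + B) + 2) / 2 := by
      have := avg_two ι (f := π.four) (p := p) g (A := A ^ 2 - 3 * A + 1) (B := B ^ 2 - 3 * B + 1)
        (fun σ => by rw [four_eq, four_eq]; exact key (fun x => x ^ 2 - 3 * x + 1) σ)
      rw [this]; ring
    -- integers
    have hsw : ∀ σ : L ≃ₐ[ℚ] L, (σ y = y ∧ σ (g y) = g y) ∨ (σ y = g y ∧ σ (g y) = y) := by
      intro σ
      by_cases hσ : σ ∈ H
      · have : σ * g ∉ H := fun h => hg (((hmem _ _).1 h).1 hσ)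
        refine Or.inl ⟨hin σ hσ p hgp, ?_⟩
        exact hout (σ * g) this p hgp
      · have : σ * g ∈ H := (hmem _ _).2 ⟨fun h => absurd h hσ, fun h => absurd h hg⟩
        refine Or.inr ⟨hout σ hσ p hgp, ?_⟩
        exact hin (σ * g) this p hgp
    have hyi : IsIntegral ℤ y := yy_integral hgp
    have hgi : IsIntegral ℤ (g y) := hyi.map (g : L →ₐ[ℚ] L)
    obtain ⟨t, ht⟩ := exists_int_of_fixed (hyi.add hgi) (fun σ => by
      rcases hsw σ with ⟨h1, h2⟩ | ⟨h1, h2⟩
      · rw [map_add, h1, h2]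
      · rw [map_add, h1, h2, add_comm])
    obtain ⟨n, hn⟩ := exists_int_of_fixed (hyi.mul hgi) (fun σ => by
      rcases hsw σ with ⟨h1, h2⟩ | ⟨h1, h2⟩
      · rw [map_mul, h1, h2]
      · rw [map_mul, h1, h2, mul_comm])
    have htr : A + B = (t : ℝ) := by
      have := congrArg ι ht
      rw [map_add, hA', hB', map_intCast] at this
      exact_mod_cast this
    have hnr : A * B = (n : ℝ) := by
      have := congrArg ι hn
      rw [map_mul, hA', hB', map_intCast] at this
      exact_mod_cast this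
    have hrat : ∀ q : ℚ, (A = q ∨ B = q) → A = B := by
      intro q hq
      have hyq : y = q := by
        rcases hq with hq | hq
        · apply ι.injective
          rw [hA', hq, map_ratCast]
          norm_cast
        · have : g y = q := by
            apply ι.injective
            rw [hB', hq, map_ratCast]
            norm_cast
          apply g.injective
          rw [this, map_ratCast]
      have e1 := u_of_yy hgp hyq (em ι 1)
      have e2 := u_of_yy hgp hyq (em ι g)
      rw [hA, hB, e1, e2]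
    have hn0 : 0 ≤ n := by
      have : (0 : ℝ) ≤ n := by rw [← hnr]; exact mul_nonneg hA0 hB0
      exact_mod_cast this
    have ht0 : 0 ≤ t := by
      have : (0 : ℝ) ≤ t := by rw [← htr]; linarith
      exact_mod_cast this
    have hdisc : 4 * n ≤ t ^ 2 := by
      have : (4 * n : ℝ) ≤ (t : ℝ) ^ 2 := by
        rw [← htr, ← hnr]
        nlinarith [sq_nonneg (A - B)]
      exact_mod_cast this
    have hAB : A ^ 2 + B ^ 2 = (t : ℝ) ^ 2 - 2 * n := by
      rw [← htr, ← hnr]; ring
    rw [es, er, hAB, htr]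
    have hnz : n = 0 → t = 0 := by
      rintro rfl
      have h1 : A * B = 0 := by rw [hnr]; simp
      have h2 : A = B := by
        rcases mul_eq_zero.1 h1 with h | h
        · exact hrat 0 (Or.inl (by simpa using h))
        · exact hrat 0 (Or.inr (by simpa using h))
      have h3 : A = 0 := by
        rw [← h2] at h1
        simpa using h1
      have : (t : ℝ) = 0 := by rw [← htr, ← h2, h3]; ring
      exact_mod_cast this
    rcases lt_or_ge t 4 with hlt | hge
    · -- small cases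
      have hn2 : n ≤ 2 := by nlinarith
      interval_cases t <;> interval_cases n <;> simp at hnz hdisc <;> try norm_num
    · have hge' : (4 : ℝ) ≤ t := by exact_mod_cast hge
      have hd' : 4 * (n : ℝ) ≤ (t : ℝ) ^ 2 := by exact_mod_cast hdisc
      have := real_ineq (s := (t : ℝ) / 2 - 1) (r := ((t : ℝ) ^ 2 - 2 * n - 3 * t + 2) / 2) (by linarith)
        (by nlinarith)
      linarith)
  rw [h4, h2] at hnn
  norm_num at hnn

end SelfDualSystem

end Pool.Agent.H74D
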