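import Pool.Agent.W_7742b_h74.CaseA

noncomputable section

namespace Pool.Agent.H74D

open Filter Topology ComplexConjugate Pool.Agent.H74C

namespace SelfDualSystem

variable {L : Type} [Field L] [NumberField L] [IsGalois ℚ L] {π : SelfDualSystem L}

lemma real_golden {A : ℝ} (h : A ^ 2 - 3 * A + 1 = 0) : A = (3 + √5) / 2 ∨ A = (3 - √5) / 2 := by
  have h5 : √5 ^ 2 = 5 := Real.sq_sqrt (by norm_num)
  have : (A - (3 + √5) / 2) * (A - (3 - √5) / 2) = 0 := by nlinarith
  rcases mul_eq_zero.1 this with h | h
  · left; linarith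
  · right; linarith

/-- The two kinds of primes. -/
lemma dichotomy (h4 : fixer π π.zz = ⊤) {p : ℕ} (hp : π.Good p) :
    (∃ n : ℕ, π.yy p = n) ∨ π.yy p ^ 2 - 3 * π.yy p + 1 = 0 := by
  have ι : L →+* ℂ := Classical.choice inferInstance
  obtain ⟨v, hv⟩ := exists_int_of_fixed (zz_integral hp) (fun σ => by
    have : σ ∈ fixer π π.zz := by rw [h4]; trivial
    exact this p hp)
  by_cases hf : ∀ σ : L ≃ₐ[ℚ] L, σ (π.yy p) = π.yy p
  · left
    obtain ⟨n, hn⟩ := exists_int_of_fixed (yy_integral hp) hf
    have h0 : (0 : ℝ) ≤ n := by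
      have := u_of_yy hp (q := n) (by rw [hn]; norm_cast) ι
      have h1 := u_nonneg hp ι
      rw [this] at h1
      exact_mod_cast h1
    have h0' : 0 ≤ n := by exact_mod_cast h0
    refine ⟨n.toNat, ?_⟩
    rw [hn]
    have : ((n.toNat : ℤ) : L) = (n : L) := by rw [Int.toNat_of_nonneg h0']
    rw [← this]
    norm_cast
  · right
    push Not at hf
    obtain ⟨σ, hσ⟩ := hf
    set y := π.yy p with hy
    have e1 : y ^ 2 - 3 * y + 1 = v := hv
    have e2 : (σ y) ^ 2 - 3 * σ y + 1 = v := by
      have := congrArg σ e1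
      rw [map_add, map_sub, map_mul, map_pow, map_one, map_ofNat, map_intCast] at this
      exact this
    have e3 : σ y = 3 - y := by
      have : (σ y - y) * (σ y + y - 3) = 0 := by linear_combination e2 - e1
      rcases mul_eq_zero.1 this with h | h
      · exact absurd (sub_eq_zero.1 h) hσ
      · linear_combination h
    set A := π.u (em ι 1) p with hA
    have hA' : ι y = (A : ℂ) := u_em ι 1 hp
    have hB' : ι (3 - y) = (π.u (em ι σ) p : ℂ) := by
      rw [← e3]; exact u_em ι σ hp
    have hB'' : π.u (em ι σ) p = 3 - A := by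
      rw [map_sub, map_ofNat, hA'] at hB'
      exact_mod_cast hB'.symm
    have hA0 : 0 ≤ A := u_nonneg hp _
    have hB0 : 0 ≤ 3 - A := by rw [← hB'']; exact u_nonneg hp _
    have hrat : ∀ q : ℚ, A ≠ q := by
      intro q hq
      apply hσ
      have hyq : y = q := by
        apply ι.injective
        rw [hA', hq, map_ratCast]
        norm_cast
      rw [hyq, map_ratCast]
    have hvr : A * (3 - A) = 1 - (v : ℝ) := by
      have := congrArg ι e1
      rw [map_add, map_sub, map_mul, map_pow, map_one, map_ofNat, map_intCast, hA'] at this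
      have h2 : A ^ 2 - 3 * A + 1 = (v : ℝ) := by exact_mod_cast this
      linarith
    have hv1 : v ≤ 1 := by
      have : (v : ℝ) ≤ 1 := by nlinarith [mul_nonneg hA0 hB0]
      exact_mod_cast this
    have hv2 : -2 < v := by
      have : (-2 : ℝ) < v := by nlinarith [sq_nonneg (A - 3 / 2)]
      exact_mod_cast this
    have : v = -1 ∨ v = 0 ∨ v = 1 := by omega
    rcases this with rfl | rfl | rfl
    · exfalso
      push_cast at hvr
      have : (A - 1) * (A - 2) = 0 := by nlinarith
      rcases mul_eq_zero.1 this with h | h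
      · exact hrat 1 (by push_cast; linarith)
      · exact hrat 2 (by push_cast; linarith)
    · rw [e1]; simp
    · exfalso
      push_cast at hvr
      have : A * (3 - A) = 0 := by linarith
      rcases mul_eq_zero.1 this with h | h
      · exact hrat 0 (by push_cast; linarith)
      · exact hrat 3 (by push_cast; linarith)

end SelfDualSystem

end Pool.Agent.H74D
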