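import Pool.Agent.W_7742b_h74.CaseB

noncomputable section

namespace Pool.Agent.H74D

open Filter Topology ComplexConjugate Pool.Agent.H74C

namespace SelfDualSystem

variable {L : Type} [Field L] [NumberField L] [IsGalois ℚ L] {π : SelfDualSystem L}

lemma sq5 : √5 ^ 2 = 5 := Real.sq_sqrt (by norm_num)

lemma sqrt5_bounds : (2.2 : ℝ) < √5 ∧ √5 < 2.3 := by
  constructor
  · rw [show (2.2 : ℝ) = √(2.2 ^ 2) by rw [Real.sqrt_sq (by norm_num)]]
    exact Real.sqrt_lt_sqrt (by norm_num) (by norm_num)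
  · rw [show (2.3 : ℝ) = √(2.3 ^ 2) by rw [Real.sqrt_sq (by norm_num)]]
    exact Real.sqrt_lt_sqrt (by norm_num) (by norm_num)

/-- The trichotomy at the good primes for an embedding `ι` and an automorphism `σ` outside of the
fixer. -/
lemma trichotomy (ι : L →+* ℂ) (h4 : fixer π π.zz = ⊤) {σ : L ≃ₐ[ℚ] L} (hσ : σ ∉ fixer π π.yy)
    {p : ℕ} (hp : π.Good p) :
    (∃ n : ℕ, π.u ι p = n ∧ π.u (em ι σ) p = n) ∨
      (π.u ι p = (3 + √5) / 2 ∧ π.u (em ι σ) p = (3 - √5) / 2) ∨
      (π.u ι p = (3 - √5) / 2 ∧ π.u (em ι σ) p = (3 + √5) / 2) := by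
  -- an element `w` with `w ^ 2 = 5` and `σ w = - w`
  obtain ⟨p0, hp0, hne⟩ : ∃ p0, π.Good p0 ∧ σ (π.yy p0) ≠ π.yy p0 := by
    by_contra hcon
    push Not at hcon
    exact hσ hcon
  have hg0 : π.yy p0 ^ 2 - 3 * π.yy p0 + 1 = 0 := by
    rcases dichotomy h4 hp0 with ⟨n, hn⟩ | h
    · exfalso
      apply hne
      rw [hn, map_natCast]
    · exact h
  set w : L := 2 * π.yy p0 - 3 with hw
  have hw5 : w ^ 2 = 5 := by rw [hw]; linear_combination 4 * hg0
  have hσw : σ w = -w := by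
    have h1 : (σ w) ^ 2 = 5 := by rw [← map_pow, hw5, map_ofNat]
    have h2 : (σ w - w) * (σ w + w) = 0 := by linear_combination h1 - hw5
    rcases mul_eq_zero.1 h2 with h | h
    · exfalso
      apply hne
      have h3 : σ w = w := sub_eq_zero.1 h
      rw [hw, map_sub, map_mul, map_ofNat, map_ofNat] at h3
      have h4 : (2 : L) * σ (π.yy p0) = 2 * π.yy p0 := by linear_combination h3
      exact mul_left_cancel₀ two_ne_zero h4
    · linear_combination h
  rcases dichotomy h4 hp with ⟨n, hn⟩ | h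
  · left
    refine ⟨n, ?_, ?_⟩
    · have := u_of_yy hp (q := n) (by rw [hn]; norm_cast) ι
      simpa using this
    · have := u_of_yy hp (q := n) (by rw [hn]; norm_cast) (em ι σ)
      simpa using this
  · right
    have h5 : (2 * π.yy p - 3) ^ 2 = w ^ 2 := by rw [hw5]; linear_combination 4 * h
    have hsig : σ (2 * π.yy p - 3) = -(2 * π.yy p - 3) := by
      rcases sq_eq_sq_iff_eq_or_eq_neg.1 h5 with h6 | h6
      · rw [h6, hσw]
      · rw [h6, map_neg, hσw]
    have hsy : σ (π.yy p) = 3 - π.yy p := by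
      rw [map_sub, map_mul, map_ofNat, map_ofNat] at hsig
      have : (2 : L) * σ (π.yy p) = 2 * (3 - π.yy p) := by linear_combination hsig
      exact mul_left_cancel₀ two_ne_zero this
    have hA := emb_yy hp ι
    have hB := u_em ι σ hp
    rw [hsy, map_sub, map_ofNat, hA] at hB
    have hB' : π.u (em ι σ) p = 3 - π.u ι p := by exact_mod_cast hB.symm
    have hgr : π.u ι p ^ 2 - 3 * π.u ι p + 1 = 0 := by
      have := congrArg ι h
      rw [map_add, map_sub, map_mul, map_pow, map_one, map_ofNat, hA, map_zero] at this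
      exact_mod_cast this
    rcases real_golden hgr with h7 | h7
    · left
      exact ⟨h7, by rw [hB', h7]; ring⟩
    · right
      exact ⟨h7, by rw [hB', h7]; ring⟩

/-- The polynomial of degree four. -/
def qq (x v : ℝ) : ℝ := v ^ 2 - 2 * (x * v) + 2 * x - 1

/-- General density lemma. -/
lemma density_of (ι : L →+* ℂ) (hO : π.Orthogonal) (h4 : fixer π π.zz = ⊤)
    {σ : L ≃ₐ[ℚ] L} (hσ : σ ∉ fixer π π.yy) (val c0 c1 c2 c3 c4 c5 : ℝ)
    (hint : ∀ n : ℕ, |(if (n : ℝ) = val then (1 : ℝ) else 0) - (c0 + c1 * ((n : ℝ) - 1) +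
      c2 * ((n : ℝ) ^ 2 - 3 * n + 1) + c3 * (((n : ℝ) - 1) * ((n : ℝ) ^ 2 - 3 * n + 1)) +
      c4 * ((n : ℝ) ^ 2 - 3 * n + 1) ^ 2 + c5 * ((n : ℝ) - 1) ^ 2)| ≤
      (n : ℝ) * (n - 1) * (n - 3) * (n - 4))
    (hp : (if (3 + √5) / 2 = val then (1 : ℝ) else 0) = c0 + c1 * ((1 + √5) / 2) - c5)
    (hm : (if (3 - √5) / 2 = val then (1 : ℝ) else 0) = c0 + c1 * ((1 - √5) / 2) - c5) :
    HasDensity (fun p => π.u ι p = val) (c0 + c4) := by
  classical
  set ι' := em ι σ with hι'
  have e1 : ι = em ι 1 := by ext x; rfl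
  have hxx : HasMean (π.ad ι * π.ad ι') 0 := by
    refine hO.ad_ad_ne _ _ fun h => hσ ?_
    rw [e1, hι'] at h
    have := (same_ad ι (σ := 1) (τ := σ)).1 h
    simpa using this
  have hx : ∀ τ, HasMean (π.ad τ) 0 := fun τ => by
    exact hO.mean_ad τ
  have hv : ∀ τ, HasMean (π.four τ) 0 := fun τ => by
    exact hO.mean_four τ
  have hxv : ∀ τ, HasMean (π.ad τ * π.four τ) 0 := fun τ => by
    exact hO.mean_ad_four τ τ
  have hvv : ∀ τ, HasMean (π.four τ * π.four τ) 1 := fun τ =>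
    hO.four_four_same τ τ fun p _ => rfl
  obtain ⟨S, hS⟩ := π.exists_bad
  -- the mean of Q
  have hq : ∀ τ, HasMean (fun p => qq (π.ad τ p) (π.four τ p)) 0 := by
    intro τ
    have h := (((hvv τ).sub ((hxv τ).const_mul 2)).add ((hx τ).const_mul 2)).sub hasMean_one
    have e : (1 : ℝ) - 2 * 0 + 2 * 0 - 1 = 0 := by norm_num
    rw [e] at h
    refine h.congr' fun p _ => ?_
    simp only [Pi.mul_apply, qq, sq]
  have hQ := ((hq ι).const_mul (1 / 2)).add ((hq ι').const_mul (1 / 2))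
  rw [mul_zero, add_zero] at hQ
  -- the linear combination
  have hL := (((((hasMean_one.const_mul c0).add ((hx ι).const_mul c1)).add
    ((hv ι).const_mul c2)).add ((hxv ι).const_mul c3)).add ((hvv ι).const_mul c4)).add
    (hxx.const_mul c5)
  have e : c0 * 1 + c1 * 0 + c2 * 0 + c3 * 0 + c4 * 1 + c5 * 0 = c0 + c4 := by ring
  rw [e] at hL
  have hD := hQ.squeeze' (g := fun p => (if π.u ι p = val then (1 : ℝ) else 0) -
    (c0 * 1 + c1 * π.ad ι p + c2 * π.four ι p + c3 * (π.ad ι * π.four ι) p +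
      c4 * (π.four ι * π.four ι) p + c5 * (π.ad ι * π.ad ι') p)) S (fun p hpp hpS => by
    have hg := hS p hpp hpS
    have h5 := sq5
    rcases trichotomy ι h4 hσ hg with ⟨n, h1, h2⟩ | ⟨h1, h2⟩ | ⟨h1, h2⟩
    · have := hint n
      simp only [Pi.mul_apply, ad_eq, four_eq, qq, hι', h1, h2]
      convert this using 1
      · congr 1
        ring
      · ring
    · have hx1 : π.ad ι p = (1 + √5) / 2 := by rw [ad_eq, h1]; ring
      have hx2 : π.ad ι' p = (1 - √5) / 2 := by rw [ad_eq, hι', h2]; ring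
      have hv1 : π.four ι p = 0 := by rw [four_eq, h1]; nlinarith
      have hv2 : π.four ι' p = 0 := by rw [four_eq, hι', h2]; nlinarith
      simp only [Pi.mul_apply, hx1, hx2, hv1, hv2, qq]
      rw [h1, hp]
      have z1 : c0 + c1 * ((1 + √5) / 2) - c5 - (c0 * 1 + c1 * ((1 + √5) / 2) + c2 * 0 +
        c3 * ((1 + √5) / 2 * 0) + c4 * (0 * 0) + c5 * ((1 + √5) / 2 * ((1 - √5) / 2))) = 0 := by
        linear_combination c5 / 4 * h5
      rw [z1, abs_zero]
      apply le_of_eq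
      ring
    · have hx1 : π.ad ι p = (1 - √5) / 2 := by rw [ad_eq, h1]; ring
      have hx2 : π.ad ι' p = (1 + √5) / 2 := by rw [ad_eq, hι', h2]; ring
      have hv1 : π.four ι p = 0 := by rw [four_eq, h1]; nlinarith
      have hv2 : π.four ι' p = 0 := by rw [four_eq, hι', h2]; nlinarith
      simp only [Pi.mul_apply, hx1, hx2, hv1, hv2, qq]
      rw [h1, hm]
      have z1 : c0 + c1 * ((1 - √5) / 2) - c5 - (c0 * 1 + c1 * ((1 - √5) / 2) + c2 * 0 +
        c3 * ((1 - √5) / 2 * 0) + c4 * (0 * 0) + c5 * ((1 - √5) / 2 * ((1 + √5) / 2))) = 0 := by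
        linear_combination c5 / 4 * h5
      rw [z1, abs_zero]
      apply le_of_eq
      ring)
  have hF := hD.add hL
  rw [zero_add] at hF
  unfold HasDensity
  refine hF.congr' fun p _ => ?_
  split_ifs <;> ring

/-- The integer inequality for a function which agrees with its polynomial at `0, 1, 3, 4` and is
bounded by the polynomial of degree four elsewhere. -/
lemma int_case {f : ℕ → ℝ} (h0 : f 0 = 0) (h1 : f 1 = 0) (h2 : |f 2| ≤ 4) (h3 : f 3 = 0)
    (h4 : f 4 = 0) (h : ∀ m : ℕ, |f (m + 5)| ≤ ((m : ℝ) + 5) * (m + 4) * (m + 2) * (m + 1)) (n : ℕ) :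
    |f n| ≤ (n : ℝ) * (n - 1) * (n - 3) * (n - 4) := by
  rcases n with _ | _ | _ | _ | _ | m
  · simp [h0]
  · simp [h1]
  · norm_num
    linarith
  · norm_num
    rw [h3]
  · norm_num
    rw [h4]
  · refine (h m).trans (le_of_eq ?_)
    push_cast
    ring

end SelfDualSystem

end Pool.Agent.H74D
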