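import Pool.Agent.W_7742b_h74.CaseC

noncomputable section

namespace Pool.Agent.H74D

open Filter Topology ComplexConjugate Pool.Agent.H74C

namespace SelfDualSystem

variable {L : Type} [Field L] [NumberField L] [IsGalois ℚ L] {π : SelfDualSystem L}

lemma ne_nat_golden (n : ℕ) : (n : ℝ) ≠ (3 + √5) / 2 := by
  intro h
  have h5 := sqrt5_bounds
  rcases Nat.lt_or_ge n 3 with hn | hn
  · have : (n : ℝ) ≤ 2 := by exact_mod_cast (by omega : n ≤ 2)
    linarith
  · have : (3 : ℝ) ≤ n := by exact_mod_cast hn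
    linarith

lemma ne_nat_golden' (n : ℕ) : (n : ℝ) ≠ (3 - √5) / 2 := by
  intro h
  have h5 := sqrt5_bounds
  rcases Nat.eq_zero_or_pos n with hn | hn
  · rw [hn] at h; push_cast at h; linarith
  · have : (1 : ℝ) ≤ n := by exact_mod_cast hn
    linarith

lemma dens_zero (ι : L →+* ℂ) (hO : π.Orthogonal) (h4 : fixer π π.zz = ⊤)
    {σ : L ≃ₐ[ℚ] L} (hσ : σ ∉ fixer π π.yy) : HasDensity (fun p => π.u ι p = 0) (1 / 4) := by
  have hb := sqrt5_bounds
  have := density_of ι hO h4 hσ 0 (1 / 12) 0 (1 / 4) (-5 / 12) (1 / 6) (1 / 12)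
    (int_case (by norm_num) (by norm_num) (by norm_num [abs_le]) (by norm_num) (by norm_num) (fun m => by
      have hne : ((m + 5 : ℕ) : ℝ) ≠ 0 := by positivity
      rw [if_neg hne, abs_le]
      have hm : (0 : ℝ) ≤ m := by positivity
      push_cast
      constructor
      · rw [neg_le_iff_add_nonneg]
        ring_nf
        positivity
      · rw [← sub_nonneg]
        ring_nf
        positivity))
    (by rw [if_neg (by linarith)]; norm_num) (by rw [if_neg (by linarith)]; norm_num)
  norm_num at this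
  convert this using 1

lemma dens_one (ι : L →+* ℂ) (hO : π.Orthogonal) (h4 : fixer π π.zz = ⊤)
    {σ : L ≃ₐ[ℚ] L} (hσ : σ ∉ fixer π π.yy) : HasDensity (fun p => π.u ι p = 1) (1 / 3) := by
  have hb := sqrt5_bounds
  have := density_of ι hO h4 hσ 1 (1 / 6) 0 (-2 / 3) (-1 / 6) (1 / 6) (1 / 6)
    (int_case (by norm_num) (by norm_num) (by norm_num [abs_le]) (by norm_num) (by norm_num) (fun m => by
      have hm : (0 : ℝ) ≤ m := by positivity
      have hne : ((m + 5 : ℕ) : ℝ) ≠ 1 := by push_cast; linarith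
      rw [if_neg hne, abs_le]
      push_cast
      constructor
      · rw [neg_le_iff_add_nonneg]
        ring_nf
        positivity
      · rw [← sub_nonneg]
        ring_nf
        positivity))
    (by rw [if_neg (by linarith)]; norm_num) (by rw [if_neg (by linarith)]; norm_num)
  norm_num at this
  convert this using 1

lemma dens_four (ι : L →+* ℂ) (hO : π.Orthogonal) (h4 : fixer π π.zz = ⊤)
    {σ : L ≃ₐ[ℚ] L} (hσ : σ ∉ fixer π π.yy) : HasDensity (fun p => π.u ι p = 4) (1 / 60) := by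
  have hb := sqrt5_bounds
  have := density_of ι hO h4 hσ 4 (-1 / 60) 0 (1 / 60) (1 / 60) (1 / 30) (-1 / 60)
    (int_case (by norm_num) (by norm_num) (by norm_num [abs_le]) (by norm_num) (by norm_num) (fun m => by
      have hm : (0 : ℝ) ≤ m := by positivity
      have hne : ((m + 5 : ℕ) : ℝ) ≠ 4 := by push_cast; linarith
      rw [if_neg hne, abs_le]
      push_cast
      constructor
      · rw [neg_le_iff_add_nonneg]
        ring_nf
        positivity
      · rw [← sub_nonneg]
        ring_nf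
        positivity))
    (by rw [if_neg (by linarith)]; norm_num) (by rw [if_neg (by linarith)]; norm_num)
  norm_num at this
  convert this using 1

lemma dens_golden (ι : L →+* ℂ) (hO : π.Orthogonal) (h4 : fixer π π.zz = ⊤)
    {σ : L ≃ₐ[ℚ] L} (hσ : σ ∉ fixer π π.yy) :
    HasDensity (fun p => π.u ι p = (3 + √5) / 2) (1 / 5) := by
  have hb := sqrt5_bounds
  have h5 := sq5
  have := density_of ι hO h4 hσ ((3 + √5) / 2) (3 / 10 - √5 / 10) (√5 / 5) (1 / 5)
    (1 / 5 - √5 / 5) (-1 / 10 + √5 / 10) (-1 / 5)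
    (by
      intro n
      rw [if_neg (ne_nat_golden n)]
      have e : (0 : ℝ) - (3 / 10 - √5 / 10 + √5 / 5 * ((n : ℝ) - 1) +
        1 / 5 * ((n : ℝ) ^ 2 - 3 * n + 1) + (1 / 5 - √5 / 5) * (((n : ℝ) - 1) * ((n : ℝ) ^ 2 - 3 * n + 1)) +
        (-1 / 10 + √5 / 10) * ((n : ℝ) ^ 2 - 3 * n + 1) ^ 2 + -1 / 5 * ((n : ℝ) - 1) ^ 2) =
        (-((√5 - 1) / 10)) * ((n : ℝ) * (n - 1) * (n - 3) * (n - 4)) := by ring
      rw [e, abs_mul, abs_neg, abs_of_nonneg (by linarith : 0 ≤ (√5 - 1) / 10)]
      have hQ : |(n : ℝ) * (n - 1) * (n - 3) * (n - 4)| = (n : ℝ) * (n - 1) * (n - 3) * (n - 4) := by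
        apply abs_of_nonneg
        have := int_case (f := fun _ => 0) rfl rfl (by norm_num) rfl rfl
          (fun m => by rw [abs_zero]; positivity) n
        simpa using this
      rw [hQ]
      have hQ0 : 0 ≤ (n : ℝ) * (n - 1) * (n - 3) * (n - 4) := by rw [← hQ]; exact abs_nonneg _
      nlinarith)
    (by rw [if_pos rfl]; nlinarith) (by rw [if_neg (by intro h; linarith)]; nlinarith)
  convert this using 1
  ring

lemma dens_golden' (ι : L →+* ℂ) (hO : π.Orthogonal) (h4 : fixer π π.zz = ⊤)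
    {σ : L ≃ₐ[ℚ] L} (hσ : σ ∉ fixer π π.yy) :
    HasDensity (fun p => π.u ι p = (3 - √5) / 2) (1 / 5) := by
  have hb := sqrt5_bounds
  have h5 := sq5
  have := density_of ι hO h4 hσ ((3 - √5) / 2) (3 / 10 + √5 / 10) (-√5 / 5) (1 / 5)
    (1 / 5 + √5 / 5) (-1 / 10 - √5 / 10) (-1 / 5)
    (by
      intro n
      rw [if_neg (ne_nat_golden' n)]
      have e : (0 : ℝ) - (3 / 10 + √5 / 10 + -√5 / 5 * ((n : ℝ) - 1) +
        1 / 5 * ((n : ℝ) ^ 2 - 3 * n + 1) + (1 / 5 + √5 / 5) * (((n : ℝ) - 1) * ((n : ℝ) ^ 2 - 3 * n + 1)) +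
        (-1 / 10 - √5 / 10) * ((n : ℝ) ^ 2 - 3 * n + 1) ^ 2 + -1 / 5 * ((n : ℝ) - 1) ^ 2) =
        ((√5 + 1) / 10) * ((n : ℝ) * (n - 1) * (n - 3) * (n - 4)) := by ring
      rw [e, abs_mul, abs_of_nonneg (by linarith : 0 ≤ (√5 + 1) / 10)]
      have hQ : |(n : ℝ) * (n - 1) * (n - 3) * (n - 4)| = (n : ℝ) * (n - 1) * (n - 3) * (n - 4) := by
        apply abs_of_nonneg
        have := int_case (f := fun _ => 0) rfl rfl (by norm_num) rfl rfl
          (fun m => by rw [abs_zero]; positivity) n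
        simpa using this
      rw [hQ]
      have hQ0 : 0 ≤ (n : ℝ) * (n - 1) * (n - 3) * (n - 4) := by rw [← hQ]; exact abs_nonneg _
      nlinarith)
    (by rw [if_neg (by intro h; linarith)]; nlinarith) (by rw [if_pos rfl]; nlinarith)
  convert this using 1
  ring

/-- The theorem for Galois fields. -/
theorem zz_top (hO : π.Orthogonal) : fixer π π.zz = ⊤ := by
  by_contra h4
  have hne : fixer π π.yy ≠ ⊤ := fun h => h4 (top_le_iff.1 (h ▸ fixer_le))
  have i4 : (fixer π π.zz).index ≠ 0 := Subgroup.index_ne_zero_of_finite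
  have i4' : (fixer π π.zz).index ≠ 1 := fun h => h4 (Subgroup.index_eq_one.1 h)
  have i2 : (fixer π π.yy).index ≠ 0 := Subgroup.index_ne_zero_of_finite
  have i2' : (fixer π π.yy).index ≠ 1 := fun h => hne (Subgroup.index_eq_one.1 h)
  have hdvd : (fixer π π.zz).index ∣ (fixer π π.yy).index := Subgroup.index_dvd_of_le fixer_le
  rcases Nat.lt_or_ge (fixer π π.yy).index 3 with h | h
  · have h2 : (fixer π π.yy).index = 2 := by omega
    have h3 := Nat.le_of_dvd (by omega) hdvd
    exact case_two hO (by omega) h2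
  · exact case_one hO (by omega) h

/-- The case of rational traces. -/
lemma yy_nat (h2 : fixer π π.yy = ⊤) {p : ℕ} (hp : π.Good p) : ∃ n : ℕ, π.yy p = n := by
  have ι : L →+* ℂ := Classical.choice inferInstance
  obtain ⟨n, hn⟩ := exists_int_of_fixed (yy_integral hp) (fun σ => by
    have : σ ∈ fixer π π.yy := by rw [h2]; trivial
    exact this p hp)
  have h0 : (0 : ℝ) ≤ n := by
    have := u_of_yy hp (q := n) (by rw [hn]; norm_cast) ι
    have h1 := u_nonneg hp ι
    rw [this] at h1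
    exact_mod_cast h1
  have h0' : 0 ≤ n := by exact_mod_cast h0
  refine ⟨n.toNat, ?_⟩
  rw [hn]
  have : ((n.toNat : ℤ) : L) = (n : L) := by rw [Int.toNat_of_nonneg h0']
  rw [← this]
  norm_cast

lemma density_exc (ι : L →+* ℂ) (hO : π.Orthogonal) (h2 : fixer π π.yy = ⊤) (val c0 c1 c2 c3 : ℝ)
    (hint : ∀ n : ℕ, |(if (n : ℝ) = val then (1 : ℝ) else 0) - (c0 + c1 * ((n : ℝ) - 1) +
      c2 * ((n : ℝ) ^ 2 - 3 * n + 1) + c3 * (((n : ℝ) - 1) * ((n : ℝ) ^ 2 - 3 * n + 1)))| ≤
      (n : ℝ) * (n - 1) * (n - 3) * (n - 4)) :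
    HasDensity (fun p => π.u ι p = val) c0 := by
  classical
  have hvv : HasMean (π.four ι * π.four ι) 1 := hO.four_four_same ι ι fun p _ => rfl
  have hx := hO.mean_ad ι
  have hv := hO.mean_four ι
  have hxv := hO.mean_ad_four ι ι
  obtain ⟨S, hS⟩ := π.exists_bad
  have hQ : HasMean (fun p => qq (π.ad ι p) (π.four ι p)) 0 := by
    have h := ((hvv.sub (hxv.const_mul 2)).add (hx.const_mul 2)).sub hasMean_one
    have e : (1 : ℝ) - 2 * 0 + 2 * 0 - 1 = 0 := by norm_num
    rw [e] at h
    refine h.congr' fun p _ => ?_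
    simp only [Pi.mul_apply, qq, sq]
  have hL := (((hasMean_one.const_mul c0).add (hx.const_mul c1)).add
    (hv.const_mul c2)).add (hxv.const_mul c3)
  have e : c0 * 1 + c1 * 0 + c2 * 0 + c3 * 0 = c0 := by ring
  rw [e] at hL
  have hD := hQ.squeeze' (g := fun p => (if π.u ι p = val then (1 : ℝ) else 0) -
    (c0 * 1 + c1 * π.ad ι p + c2 * π.four ι p + c3 * (π.ad ι * π.four ι) p)) S (fun p hpp hpS => by
    have hg := hS p hpp hpS
    obtain ⟨n, hn⟩ := yy_nat h2 hg
    have h1 : π.u ι p = n := by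
      have := u_of_yy hg (q := n) (by rw [hn]; norm_cast) ι
      simpa using this
    have := hint n
    simp only [Pi.mul_apply, ad_eq, four_eq, qq, h1]
    convert this using 1
    · congr 1
      ring
    · ring)
  have hF := hD.add hL
  rw [zero_add] at hF
  unfold HasDensity
  refine hF.congr' fun p _ => ?_
  split_ifs <;> ring

lemma exc_zero (ι : L →+* ℂ) (hO : π.Orthogonal) (h2 : fixer π π.yy = ⊤) :
    HasDensity (fun p => π.u ι p = 0) (1 / 3) :=
  density_exc ι hO h2 0 (1 / 3) (-1 / 4) (1 / 3) (-1 / 12)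
    (int_case (by norm_num) (by norm_num) (by norm_num [abs_le]) (by norm_num) (by norm_num) (fun m => by
      have hne : ((m + 5 : ℕ) : ℝ) ≠ 0 := by positivity
      rw [if_neg hne, abs_le]
      have hm : (0 : ℝ) ≤ m := by positivity
      push_cast
      constructor
      · rw [neg_le_iff_add_nonneg]
        ring_nf
        positivity
      · rw [← sub_nonneg]
        ring_nf
        positivity))

lemma exc_one (ι : L →+* ℂ) (hO : π.Orthogonal) (h2 : fixer π π.yy = ⊤) :
    HasDensity (fun p => π.u ι p = 1) (1 / 2) :=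
  density_exc ι hO h2 1 (1 / 2) (-1 / 6) (-1 / 2) (1 / 6)
    (int_case (by norm_num) (by norm_num) (by norm_num [abs_le]) (by norm_num) (by norm_num) (fun m => by
      have hm : (0 : ℝ) ≤ m := by positivity
      have hne : ((m + 5 : ℕ) : ℝ) ≠ 1 := by push_cast; linarith
      rw [if_neg hne, abs_le]
      push_cast
      constructor
      · rw [neg_le_iff_add_nonneg]
        ring_nf
        positivity
      · rw [← sub_nonneg]
        ring_nf
        positivity))

lemma exc_three (ι : L →+* ℂ) (hO : π.Orthogonal) (h2 : fixer π π.yy = ⊤) :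
    HasDensity (fun p => π.u ι p = 3) (1 / 6) :=
  density_exc ι hO h2 3 (1 / 6) (1 / 2) (1 / 6) (-1 / 6)
    (int_case (by norm_num) (by norm_num) (by norm_num [abs_le]) (by norm_num) (by norm_num) (fun m => by
      have hm : (0 : ℝ) ≤ m := by positivity
      have hne : ((m + 5 : ℕ) : ℝ) ≠ 3 := by push_cast; linarith
      rw [if_neg hne, abs_le]
      push_cast
      constructor
      · rw [neg_le_iff_add_nonneg]
        ring_nf
        positivity
      · rw [← sub_nonneg]
        ring_nf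
        positivity))

end SelfDualSystem

end Pool.Agent.H74D
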