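import Pool.Agent.W_7742_h74.Stmt

/-! Definitions for the statement: systems of Hecke traces of self-dual cusp forms on `GL_3`, Selberg
orthogonality, icosahedral type, the exceptional distribution. -/

noncomputable section

namespace Pool.Agent.H74D

open Filter Topology ComplexConjugate Pool.Agent.H74C

/-- A self-dual system of Hecke traces on `GL_3`: algebraic integers `b p` of the number field `K` for
the primes `p` not dividing the level, and a quadratic Dirichlet character `ν` (the central
character), such that `1 + ν p * σ (b p)` is a nonnegative real number for all embeddings `σ` (it is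
`|a p|^2` if the system is the adjoint square of the system `a` on `GL_2`, twisted by `ν`). -/
structure SelfDualSystem (K : Type) [Field K] [NumberField K] where
  /-- the level -/
  level : ℕ
  level_pos : 0 < level
  /-- the central character -/
  ν : DirichletCharacter ℤ level
  /-- the traces -/
  b : ℕ → K
  integral : ∀ p, p.Prime → ¬ p ∣ level → IsIntegral ℤ (b p)
  positive : ∀ p, p.Prime → ¬ p ∣ level → ∀ σ : K →+* ℂ, ∃ r : ℝ, 0 ≤ r ∧ 1 + ν p * σ (b p) = r

namespace SelfDualSystem

variable {K : Type} [Field K] [NumberField K] (π : SelfDualSystem K)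

/-- The prime `p` does not divide the level. -/
def Good (p : ℕ) : Prop := p.Prime ∧ ¬ p ∣ π.level

/-- The traces of the conjugate system, twisted by the central character. -/
def ad (σ : K →+* ℂ) (p : ℕ) : ℝ := π.ν p * (σ (π.b p)).re

/-- The traces `x ^ 2 - x - 1`, `x = ad σ p`, of the largest constituent (of rank five) of the
symmetric square of the conjugate system. -/
def four (σ : K →+* ℂ) (p : ℕ) : ℝ := π.ad σ p ^ 2 - π.ad σ p - 1

/-- `f` and `g` agree at the primes which do not divide the level. -/
def Same (f g : ℕ → ℝ) : Prop := ∀ p, π.Good p → f p = g p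

/-- Selberg orthogonality for the conjugate systems (rank three) and the representations of rank
five.  The functions `ad σ`, `four σ` and `ad σ * four τ` have mean value `0`; `ad σ * ad τ` has mean
value `1` if `ad σ` and `ad τ` agree and `0` otherwise; `four σ * four τ` has mean value `1` if
`four σ` and `four τ` agree and `0` otherwise. -/
structure Orthogonal : Prop where
  mean_ad : ∀ σ, HasMean (π.ad σ) 0
  mean_four : ∀ σ, HasMean (π.four σ) 0
  mean_ad_four : ∀ σ τ, HasMean (π.ad σ * π.four τ) 0
  ad_ad_same : ∀ σ τ, π.Same (π.ad σ) (π.ad τ) → HasMean (π.ad σ * π.ad τ) 1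
  ad_ad_ne : ∀ σ τ, ¬ π.Same (π.ad σ) (π.ad τ) → HasMean (π.ad σ * π.ad τ) 0
  four_four_same : ∀ σ τ, π.Same (π.four σ) (π.four τ) → HasMean (π.four σ * π.four τ) 1
  four_four_ne : ∀ σ τ, ¬ π.Same (π.four σ) (π.four τ) → HasMean (π.four σ * π.four τ) 0

/-- `f` vanishes at the primes with `χ p ≠ 1`, for a Dirichlet character `χ ≠ 1`. -/
def SelfTwist (f : ℕ → K) : Prop :=
  ∃ M : ℕ, 0 < M ∧ ∃ χ : DirichletCharacter ℂ M, χ ≠ 1 ∧
    ∀ p, π.Good p → ¬ p ∣ M → χ p ≠ 1 → f p = 0

/-- The system is isomorphic to a twist of itself (it is the adjoint square of a representation of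
tetrahedral type, up to a twist). -/
def Tetrahedral : Prop := π.SelfTwist π.b

/-- The system is the adjoint square of a representation of octahedral type, up to a twist. -/
def Octahedral : Prop := π.SelfTwist fun p => π.b p ^ 2 - 1

/-- The theorem of Kim and Shahidi (the fourth symmetric power of a cusp form on `GL_2` is cuspidal if
it is not dihedral, tetrahedral or octahedral) and the Rankin-Selberg theory. -/
def KimShahidi : Prop := ¬ π.Tetrahedral → ¬ π.Octahedral → π.Orthogonal

/-- The system is of icosahedral type: `K` contains `√5`; for all primes `p` which do not divide the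
level, `ad σ p` is a rational integer for all `σ`, the same one, or it is `(1 + √5) / 2` or
`(1 - √5) / 2` for all `σ`; and for all `σ` the primes with `ad σ p = -1`, `0`, `3`, `(1 + √5) / 2`
and `(1 - √5) / 2` have the densities `1/4`, `1/3`, `1/60`, `1/5` and `1/5`. -/
structure Icosahedral : Prop where
  sqrt_five : ∃ z : K, z ^ 2 = 5
  values : ∀ p, π.Good p → (∃ n : ℤ, ∀ σ, π.ad σ p = n) ∨
    ∀ σ, π.ad σ p = (1 + √5) / 2 ∨ π.ad σ p = (1 - √5) / 2
  neg_one : ∀ σ, HasDensity (fun p => π.ad σ p = -1) (1 / 4)
  zero : ∀ σ, HasDensity (fun p => π.ad σ p = 0) (1 / 3)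
  three : ∀ σ, HasDensity (fun p => π.ad σ p = 3) (1 / 60)
  golden : ∀ σ, HasDensity (fun p => π.ad σ p = (1 + √5) / 2) (1 / 5)
  golden' : ∀ σ, HasDensity (fun p => π.ad σ p = (1 - √5) / 2) (1 / 5)

/-- The exceptional distribution: the traces are rational integers, and the primes with
`ad σ p = -1`, `0` and `2` have the densities `1/3`, `1/2` and `1/6`. -/
structure Exceptional : Prop where
  values : ∀ p, π.Good p → ∃ n : ℤ, π.b p = n
  neg_one : ∀ σ, HasDensity (fun p => π.ad σ p = -1) (1 / 3)
  zero : ∀ σ, HasDensity (fun p => π.ad σ p = 0) (1 / 2)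
  two : ∀ σ, HasDensity (fun p => π.ad σ p = 2) (1 / 6)

end SelfDualSystem

end Pool.Agent.H74D
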