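import Pool.Agent.W_7742b_h74.Stmt
import Pool.Agent.W_7742_h74.Arith
import Pool.Agent.W_7742_h74.Cls

noncomputable section

namespace Pool.Agent.H74D

open Filter Topology ComplexConjugate Pool.Agent.H74C

namespace SelfDualSystem

section general

variable {K : Type} [Field K] [NumberField K] (π : SelfDualSystem K)

/-- The element `1 + ν p * b p`. -/
def yy (p : ℕ) : K := 1 + ((π.ν p : ℤ) : K) * π.b p

/-- The element `y ^ 2 - 3 y + 1`. -/
def zz (p : ℕ) : K := π.yy p ^ 2 - 3 * π.yy p + 1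

/-- The real number `1 + ad`. -/
def u (σ : K →+* ℂ) (p : ℕ) : ℝ := 1 + π.ad σ p

variable {π} {p : ℕ}

lemma yy_integral (hp : π.Good p) : IsIntegral ℤ (π.yy p) := by
  unfold yy
  refine isIntegral_one.add (IsIntegral.mul ?_ (π.integral p hp.1 hp.2))
  have := isIntegral_algebraMap (R := ℤ) (A := K) (x := π.ν p)
  simpa using this

lemma zz_integral (hp : π.Good p) : IsIntegral ℤ (π.zz p) := by
  unfold zz
  have h3 : IsIntegral ℤ (3 : K) := by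
    have := isIntegral_algebraMap (R := ℤ) (A := K) (x := 3)
    simpa using this
  exact (((yy_integral hp).pow 2).sub (h3.mul (yy_integral hp))).add isIntegral_one

lemma emb_yy (hp : π.Good p) (τ : K →+* ℂ) : τ (π.yy p) = (π.u τ p : ℂ) := by
  obtain ⟨r, _, hr⟩ := π.positive p hp.1 hp.2 τ
  unfold yy u ad
  rw [map_add, map_one, map_mul, map_intCast, hr]
  have h2 := congrArg Complex.re hr
  rw [Complex.add_re, Complex.one_re, Complex.ofReal_re] at h2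
  have h3 : (((π.ν p : ℤ) : ℂ) * τ (π.b p)).re = (π.ν p : ℝ) * (τ (π.b p)).re := by
    rw [show ((π.ν p : ℤ) : ℂ) = (((π.ν p : ℤ) : ℝ) : ℂ) by push_cast; rfl, Complex.re_ofReal_mul]
  rw [h3] at h2
  rw [← h2]

lemma ad_eq (τ : K →+* ℂ) (p : ℕ) : π.ad τ p = π.u τ p - 1 := by
  unfold u
  ring

lemma four_eq (τ : K →+* ℂ) (p : ℕ) : π.four τ p = π.u τ p ^ 2 - 3 * π.u τ p + 1 := by
  unfold four u
  ring

lemma emb_zz (hp : π.Good p) (τ : K →+* ℂ) : τ (π.zz p) = (π.four τ p : ℂ) := by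
  rw [four_eq]
  unfold zz
  rw [map_add, map_sub, map_mul, map_pow, emb_yy hp, map_one]
  have : τ (3 : K) = 3 := map_ofNat τ 3
  rw [this]
  push_cast
  ring

lemma u_nonneg (hp : π.Good p) (τ : K →+* ℂ) : 0 ≤ π.u τ p := by
  obtain ⟨r, h0, hr⟩ := π.positive p hp.1 hp.2 τ
  have h1 := emb_yy hp τ
  unfold yy at h1
  rw [map_add, map_one, map_mul, map_intCast, hr] at h1
  have : r = π.u τ p := by exact_mod_cast h1
  rw [← this]
  exact h0

/-- The finite set of bad primes. -/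
lemma exists_bad (π : SelfDualSystem K) : ∃ S : Finset ℕ, ∀ p, p.Prime → p ∉ S → π.Good p := by
  refine ⟨π.level.primeFactors, fun p hp hS => ⟨hp, fun hd => hS ?_⟩⟩
  exact Nat.mem_primeFactors.2 ⟨hp, hd, π.level_pos.ne'⟩

end general

section galois

variable {L : Type} [Field L] [NumberField L] [IsGalois ℚ L] (π : SelfDualSystem L) (ι : L →+* ℂ)

/-- The embedding `ι ∘ σ`. -/
def em (σ : L ≃ₐ[ℚ] L) : L →+* ℂ := ι.comp (σ : L →+* L)

lemma em_apply (σ : L ≃ₐ[ℚ] L) (x : L) : em ι σ x = ι (σ x) := rfl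

/-- The elements fixing all `f p`. -/
def fixer (π : SelfDualSystem L) (f : ℕ → L) : Subgroup (L ≃ₐ[ℚ] L) where
  carrier := {h | ∀ p, π.Good p → h (f p) = f p}
  mul_mem' := by
    intro a b ha hb p hp
    rw [AlgEquiv.mul_apply, hb p hp, ha p hp]
  one_mem' := fun p _ => rfl
  inv_mem' := by
    intro a ha p hp
    have := ha p hp
    conv_lhs => rw [← this]
    exact a.symm_apply_apply _

variable {π}

lemma mem_fixer {f : ℕ → L} {h : L ≃ₐ[ℚ] L} : h ∈ fixer π f ↔ ∀ p, π.Good p → h (f p) = f p :=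
  Iff.rfl

lemma fixer_iff {f : ℕ → L} {σ τ : L ≃ₐ[ℚ] L} :
    σ⁻¹ * τ ∈ fixer π f ↔ ∀ p, π.Good p → σ (f p) = τ (f p) := by
  rw [mem_fixer]
  refine forall₂_congr fun p _ => ?_
  rw [AlgEquiv.mul_apply]
  constructor
  · intro h
    have := congrArg σ h
    rw [← this]
    exact (σ.apply_symm_apply _)
  · intro h
    rw [← h]
    exact σ.symm_apply_apply _

lemma u_em (σ : L ≃ₐ[ℚ] L) {p : ℕ} (hp : π.Good p) : ι (σ (π.yy p)) = (π.u (em ι σ) p : ℂ) :=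
  emb_yy hp (em ι σ)

lemma four_em (σ : L ≃ₐ[ℚ] L) {p : ℕ} (hp : π.Good p) : ι (σ (π.zz p)) = (π.four (em ι σ) p : ℂ) :=
  emb_zz hp (em ι σ)

lemma same_ad {σ τ : L ≃ₐ[ℚ] L} :
    π.Same (π.ad (em ι σ)) (π.ad (em ι τ)) ↔ σ⁻¹ * τ ∈ fixer π π.yy := by
  rw [fixer_iff]
  refine forall₂_congr fun p hp => ?_
  constructor
  · intro h
    apply ι.injective
    rw [u_em ι σ hp, u_em ι τ hp]
    unfold u
    rw [h]
  · intro h
    have := congrArg ι h
    rw [u_em ι σ hp, u_em ι τ hp] at this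
    have h2 : π.u (em ι σ) p = π.u (em ι τ) p := by exact_mod_cast this
    unfold u at h2
    linarith

lemma same_four {σ τ : L ≃ₐ[ℚ] L} :
    π.Same (π.four (em ι σ)) (π.four (em ι τ)) ↔ σ⁻¹ * τ ∈ fixer π π.zz := by
  rw [fixer_iff]
  refine forall₂_congr fun p hp => ?_
  constructor
  · intro h
    apply ι.injective
    rw [four_em ι σ hp, four_em ι τ hp, h]
  · intro h
    have := congrArg ι h
    rw [four_em ι σ hp, four_em ι τ hp] at this
    exact_mod_cast this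

lemma fixer_le : fixer π π.yy ≤ fixer π π.zz := by
  intro h hh p hp
  have := hh p hp
  unfold zz
  rw [map_add, map_sub, map_mul, map_pow, this, map_one, map_ofNat]

/-- The average over the group. -/
def avg (f : (L →+* ℂ) → ℕ → ℝ) (p : ℕ) : ℝ :=
  (Fintype.card (L ≃ₐ[ℚ] L) : ℝ)⁻¹ * ∑ σ : L ≃ₐ[ℚ] L, f (em ι σ) p

lemma mean_avg {f : (L →+* ℂ) → ℕ → ℝ} {c : ℝ} (h : ∀ τ, HasMean (f τ) c) :
    HasMean (avg ι f) c := by
  have h1 := (HasMean.sum (Finset.univ : Finset (L ≃ₐ[ℚ] L)) (f := fun σ => f (em ι σ))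
    (a := fun _ => c) fun σ _ => h _).const_mul (Fintype.card (L ≃ₐ[ℚ] L) : ℝ)⁻¹
  rw [Finset.sum_const, Finset.card_univ, nsmul_eq_mul, ← mul_assoc, inv_mul_cancel₀
    (by exact_mod_cast Fintype.card_ne_zero), one_mul] at h1
  exact h1

lemma mean_avg_mul {f g : (L →+* ℂ) → ℕ → ℝ} {c : ℝ} (h : ∀ τ τ', HasMean (f τ * g τ') c) :
    HasMean (avg ι f * avg ι g) c := by
  have h1 := ((HasMean.sum (Finset.univ : Finset ((L ≃ₐ[ℚ] L) × (L ≃ₐ[ℚ] L)))
    (f := fun σ => f (em ι σ.1) * g (em ι σ.2))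
    (a := fun _ => c) fun σ _ => h _ _).const_mul (Fintype.card (L ≃ₐ[ℚ] L) : ℝ)⁻¹).const_mul
      (Fintype.card (L ≃ₐ[ℚ] L) : ℝ)⁻¹
  have hc : (Fintype.card (L ≃ₐ[ℚ] L) : ℝ) ≠ 0 := by exact_mod_cast Fintype.card_ne_zero
  rw [Finset.sum_const, Finset.card_univ, nsmul_eq_mul, Fintype.card_prod] at h1
  have e : (Fintype.card (L ≃ₐ[ℚ] L) : ℝ)⁻¹ * ((Fintype.card (L ≃ₐ[ℚ] L) : ℝ)⁻¹ *
      (((Fintype.card (L ≃ₐ[ℚ] L) * Fintype.card (L ≃ₐ[ℚ] L) : ℕ) : ℝ) * c)) = c := by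
    push_cast
    field_simp
  rw [e] at h1
  refine h1.congr' fun p _ => ?_
  simp only [Pi.mul_apply, avg, Fintype.sum_prod_type]
  rw [mul_mul_mul_comm, Finset.sum_mul_sum]
  ring

lemma mean_avg_sq {f : (L →+* ℂ) → ℕ → ℝ} (H : Subgroup (L ≃ₐ[ℚ] L))
    (h1 : ∀ σ τ, σ⁻¹ * τ ∈ H → HasMean (f (em ι σ) * f (em ι τ)) 1)
    (h0 : ∀ σ τ, σ⁻¹ * τ ∉ H → HasMean (f (em ι σ) * f (em ι τ)) 0) :
    HasMean (fun p => avg ι f p ^ 2) ((H.index : ℝ)⁻¹) := by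
  classical
  have hm := ((HasMean.sum (Finset.univ : Finset ((L ≃ₐ[ℚ] L) × (L ≃ₐ[ℚ] L)))
    (f := fun σ => f (em ι σ.1) * f (em ι σ.2))
    (a := fun σ => if σ.1⁻¹ * σ.2 ∈ H then 1 else 0) fun σ _ => by
      split_ifs with h
      · exact h1 _ _ h
      · exact h0 _ _ h).const_mul (Fintype.card (L ≃ₐ[ℚ] L) : ℝ)⁻¹).const_mul
      (Fintype.card (L ≃ₐ[ℚ] L) : ℝ)⁻¹
  have hc : (Fintype.card (L ≃ₐ[ℚ] L) : ℝ) ≠ 0 := by exact_mod_cast Fintype.card_ne_zero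
  have hsum : ∑ σ : (L ≃ₐ[ℚ] L) × (L ≃ₐ[ℚ] L), (if σ.1⁻¹ * σ.2 ∈ H then (1 : ℝ) else 0) =
      Fintype.card (L ≃ₐ[ℚ] L) * Nat.card H := by
    rw [Fintype.sum_prod_type]
    have : ∀ σ : L ≃ₐ[ℚ] L, ∑ τ : L ≃ₐ[ℚ] L, (if σ⁻¹ * τ ∈ H then (1 : ℝ) else 0) = Nat.card H := by
      intro σ
      rw [← Equiv.sum_comp (Equiv.mulLeft σ)]
      simp only [Equiv.coe_mulLeft, inv_mul_cancel_left]
      rw [Finset.sum_ite, Finset.sum_const_zero, add_zero, Finset.sum_const, nsmul_eq_mul, mul_one,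
        Nat.card_eq_fintype_card, Fintype.card_subtype]
    simp only [this, Finset.sum_const, Finset.card_univ, nsmul_eq_mul]
  rw [hsum] at hm
  have hi : (H.index : ℝ) * Nat.card H = Fintype.card (L ≃ₐ[ℚ] L) := by
    have := H.index_mul_card
    rw [Nat.card_eq_fintype_card (α := L ≃ₐ[ℚ] L)] at this
    exact_mod_cast this
  have hH : (Nat.card H : ℝ) ≠ 0 := by
    have : 0 < Nat.card H := Nat.card_pos
    exact_mod_cast this.ne'
  have hI : (H.index : ℝ) ≠ 0 := by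
    have : H.index ≠ 0 := Subgroup.index_ne_zero_of_finite
    exact_mod_cast this
  have e : (Fintype.card (L ≃ₐ[ℚ] L) : ℝ)⁻¹ * ((Fintype.card (L ≃ₐ[ℚ] L) : ℝ)⁻¹ *
      ((Fintype.card (L ≃ₐ[ℚ] L) : ℝ) * Nat.card H)) = (H.index : ℝ)⁻¹ := by
    rw [inv_mul_cancel_left₀ hc, ← hi, mul_inv, inv_mul_cancel_right₀ hH]
  rw [e] at hm
  refine hm.congr' fun p _ => ?_
  simp only [Pi.mul_apply, avg, Fintype.sum_prod_type, sq]
  rw [mul_mul_mul_comm, Finset.sum_mul_sum]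
  ring

end galois

end SelfDualSystem

end Pool.Agent.H74D
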